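import Pool.Agent.H5.EH.B2
import Pool.Agent.H21.EH.ModB
import Pool.Agent.H56.EH.NV

/-!
# EHP, Step 1: majorisation on circles
-/

open MeasureTheory Set intervalIntegral Real
open Pool.Agent.H9.EH (J norm_circleMap_add_sq)
open Pool.Agent.H56.EH (Nv Nz)

namespace EHP

lemma J_zero (r t : ℝ) : J r 0 t = 0 := by
  unfold J; simp

/-- Jensen on the full circle. -/
lemma J_pi {r t : ℝ} (hr : 0 < r) (ht : 0 ≤ t) : J r π t = 2 * π * Real.log (max r t) := by
  have h := circleAverage_log_norm_sub_const_eq_log_radius_add_posLog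
    (a := ((-t : ℝ) : ℂ)) (c := 0) hr.ne'
  rw [Real.circleAverage_def] at h
  have h2 : Real.log r + Real.posLog (r⁻¹ * ‖(0:ℂ) - ((-t : ℝ) : ℂ)‖) = Real.log (max r t) := by
    rw [log_max_eq hr ht, zero_sub, norm_neg, Complex.norm_real, norm_neg,
      Real.norm_of_nonneg ht, div_eq_inv_mul]
  rw [h2] at h
  have hper : Function.Periodic (fun φ : ℝ => Real.log ‖circleMap 0 r φ + (t : ℂ)‖) (2 * π) := by
    intro φ
    simp only
    rw [periodic_circleMap]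
  have h3 := hper.intervalIntegral_add_eq (-π) 0
  unfold J
  have h4 : (-π + 2 * π) = π := by ring
  rw [h4, zero_add] at h3
  rw [h3, ← h]
  have h5 : ∀ φ : ℝ, (circleMap 0 r φ - ((-t : ℝ) : ℂ)) = circleMap 0 r φ + (t : ℂ) := by
    intro φ; push_cast; ring
  simp only [h5, smul_eq_mul]
  have hpi := Real.two_pi_pos.ne'
  field_simp

lemma Nv_eq_full {s : ℝ} (hs : 0 < s) :
    Nv s = (2 * π)⁻¹ * ∫ a in (0:ℝ)..(2 * π), Real.log (max s (pt a)) := by
  have hc : Continuous (fun a : ℝ => Real.log (max s (2 + 2 * Real.cos a))) :=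
    Pool.Agent.H56.EH.nv_cont hs
  have h := Pool.Agent.H21.EH.int_cos_half (fun x => Real.log (max s (2 + 2 * x)))
    (hc.intervalIntegrable _ _)
  unfold Nv pt
  rw [h]
  have hpi := Real.pi_pos.ne'
  field_simp

/-- The comparison of arc integrals for all half widths. -/
theorem arc_compare {n : ℕ} (hn : 0 < n) (a : Fin n → ℂ) {c : ℝ} (hc : 0 ≤ c)
    (h : ∀ r, 0 < r → Nz a r ≤ Nv r + c)
    {r : ℝ} (hr : 0 < r) {psi : ℝ} (hpsi : 0 ≤ psi) (hpsi' : psi ≤ π) :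
    (1 / (n : ℝ)) * ∑ j, J r psi ‖a j‖
      ≤ (∫ φ in (-psi)..psi, Pool.Agent.H21.EH.gv (-(circleMap 0 r φ))) + 2 * psi * c := by
  have hgl : ∀ s : ℝ, 0 < s → (1 / (n : ℝ)) * ∑ j, Real.log (max s ‖a j‖)
      ≤ (2 * π)⁻¹ * (∫ a in (0:ℝ)..(2 * π), Real.log (max s (pt a))) + c := by
    intro s hs
    rw [← Nv_eq_full hs]
    exact h s hs
  have hM : ∫ φ in (-psi)..psi, Pool.Agent.H21.EH.gv (-(circleMap 0 r φ))
      = (2 * π)⁻¹ * ∫ b in (0:ℝ)..(2 * π), J r psi (pt b) :=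
    Pool.Agent.H21.EH.int_gv_arc hr hpsi hpsi'
  rcases hpsi.eq_or_lt with h0 | h0
  · rw [← h0]; simp [J_zero]
  rcases hpsi'.eq_or_lt with h1 | h1
  · rw [hM, h1]
    have e1 : ∀ b, J r π (pt b) = 2 * π * Real.log (max r (pt b)) := fun b =>
      J_pi hr (pt_nonneg b)
    have e2 : ∀ j, J r π ‖a j‖ = 2 * π * Real.log (max r ‖a j‖) := fun j =>
      J_pi hr (norm_nonneg _)
    simp only [e1, e2]
    rw [← Finset.mul_sum, intervalIntegral.integral_const_mul]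
    have h2 := hgl r hr
    have hpi := Real.two_pi_pos
    calc (1 / (n:ℝ)) * (2 * π * ∑ j, Real.log (max r ‖a j‖))
        = 2 * π * ((1 / (n:ℝ)) * ∑ j, Real.log (max r ‖a j‖)) := by ring
      _ ≤ 2 * π * ((2 * π)⁻¹ * (∫ a in (0:ℝ)..(2 * π), Real.log (max r (pt a))) + c) :=
          mul_le_mul_of_nonneg_left h2 hpi.le
      _ = _ := by ring
  · rw [hM]
    exact glue hn a c hc hgl hr h0 h1

/-- **Majorisation on circles.** -/
theorem majorize {n : ℕ} (hn : 0 < n) (a : Fin n → ℂ) (h : ∀ r, 0 < r → Nz a r ≤ Nv r)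
    {r : ℝ} (hr : 0 < r) (T : ℝ) :
    ∫ φ in (0 : ℝ)..(2 * π),
        max ((1 / (n : ℝ)) * ∑ j, Real.log ‖circleMap 0 r φ - a j‖ - T) 0 ≤
      ∫ φ in (0 : ℝ)..(2 * π),
        max (Real.arcosh ((‖circleMap 0 r φ‖ + ‖circleMap 0 r φ - 4‖) / 4) - T) 0 := by
  refine Pool.Agent.H9.EH.step1_of_J a r hr Pool.Agent.H21.EH.gv
    (Pool.Agent.H21.EH.continuous_gv.comp (continuous_circleMap 0 r)) ?_ T
  intro psi h0 h1
  have := arc_compare hn a le_rfl (fun r hr => by simpa using h r hr) hr h0 h1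
  simpa using this

end EHP
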