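import Mathlib

/-!
# Kernel identity for arcs (Step 1 of the proof of the total radius theorem)

`JJ r psi s` is the integral of `log |r e^{i phi} - s|` over the arc `|phi - pi| < psi`.
It is a positive combination of the functions `s ↦ log⁺ (s / tau)` with the explicit kernel `kk`.
-/

open MeasureTheory Set intervalIntegral Real

namespace EHP

/-- `|r + t e^{i a}|^2`. -/
noncomputable def DD (r a t : ℝ) : ℝ := r ^ 2 + t ^ 2 + 2 * r * t * Real.cos a

/-- The kernel. -/
noncomputable def kk (r psi t : ℝ) : ℝ := 2 * r * Real.sin psi / DD r psi t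

/-- The kernel for one angle. -/
noncomputable def ka (r a t : ℝ) : ℝ :=
  r * ((r ^ 2 + t ^ 2) * Real.cos a + 2 * r * t) / (DD r a t) ^ 2

/-- The arc integral of the logarithm. -/
noncomputable def JJ (r psi s : ℝ) : ℝ :=
  ∫ a in (-psi)..psi, (1 / 2) * Real.log (DD r a s)

lemma neg_one_lt_cos {a : ℝ} (ha : -π < a) (ha' : a < π) : -1 < Real.cos a := by
  have h := Real.cos_lt_cos_of_nonneg_of_le_pi (x := |a|) (y := π) (abs_nonneg a) le_rfl
    (abs_lt.2 ⟨ha, ha'⟩)
  rw [Real.cos_pi, Real.cos_abs] at h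
  exact h

lemma DD_pos {r a t : ℝ} (hr : 0 < r) (ht : 0 ≤ t) (ha : -π < a) (ha' : a < π) :
    0 < DD r a t := by
  have hc := neg_one_lt_cos ha ha'
  unfold DD
  rcases ht.eq_or_lt with h | h
  · rw [← h]; nlinarith [sq_nonneg r, pow_pos hr 2]
  · have h1 : 0 < r * t := mul_pos hr h
    nlinarith [sq_nonneg (r - t), mul_pos h1 (by linarith : (0:ℝ) < 1 + Real.cos a)]

lemma hasDerivAt_ang {r a t : ℝ} (hD : DD r a t ≠ 0) :
    HasDerivAt (fun a => r * Real.sin a / DD r a t) (ka r a t) a := by
  have h1 : HasDerivAt (fun a => DD r a t) (2 * r * t * (-Real.sin a)) a := by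
    unfold DD
    exact ((Real.hasDerivAt_cos a).const_mul (2 * r * t)).const_add _
  have h2 : HasDerivAt (fun a => r * Real.sin a) (r * Real.cos a) a :=
    (Real.hasDerivAt_sin a).const_mul r
  have h3 := h2.div h1 hD
  refine h3.congr_deriv ?_
  unfold ka
  congr 1
  have hs := Real.sin_sq_add_cos_sq a
  unfold DD
  linear_combination (2 * r ^ 2 * t) * hs

lemma ka_continuousOn {r : ℝ} (hr : 0 < r) {psi s : ℝ} (hpsi' : psi < π) :
    ContinuousOn (fun p : ℝ × ℝ => ka r p.1 p.2) (Icc (-psi) psi ×ˢ Icc 0 s) := by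
  unfold ka
  refine ContinuousOn.div ?_ ?_ ?_
  · fun_prop
  · unfold DD; fun_prop
  · rintro ⟨a, t⟩ ⟨ha, ht⟩
    exact pow_ne_zero _ (DD_pos hr ht.1 (by simp at ha; linarith [ha.1]) (by simp at ha; linarith [ha.2])).ne'

lemma int_ka {r : ℝ} (hr : 0 < r) {psi t : ℝ} (hpsi : 0 ≤ psi) (hpsi' : psi < π) (ht : 0 ≤ t) :
    ∫ a in (-psi)..psi, ka r a t = kk r psi t := by
  have hle : -psi ≤ psi := by linarith
  have hc : ContinuousOn (fun a => ka r a t) (Icc (-psi) psi) := by
    have := (ka_continuousOn hr (psi := psi) (s := t) hpsi').comp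
      (f := fun a : ℝ => (a, t)) (s := Icc (-psi) psi) (by fun_prop)
      (fun a ha => ⟨ha, ⟨ht, le_rfl⟩⟩)
    exact this
  rw [intervalIntegral.integral_eq_sub_of_hasDerivAt (f := fun a => r * Real.sin a / DD r a t)]
  · unfold kk DD
    rw [Real.sin_neg, Real.cos_neg]
    ring
  · intro a ha
    rw [uIcc_of_le hle] at ha
    exact hasDerivAt_ang (DD_pos hr ht (by linarith [ha.1]) (by linarith [ha.2])).ne'
  · apply ContinuousOn.intervalIntegrable
    rwa [uIcc_of_le hle]

lemma hasDerivAt_DD_t (r a t : ℝ) :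
    HasDerivAt (fun t => DD r a t) (2 * t + 2 * r * Real.cos a) t := by
  unfold DD
  have h1 : HasDerivAt (fun t : ℝ => t ^ 2) (2 * t) t := by
    simpa using hasDerivAt_pow 2 t
  have h2 : HasDerivAt (fun t : ℝ => 2 * r * t * Real.cos a) (2 * r * Real.cos a) t := by
    have := ((hasDerivAt_id t).const_mul (2 * r)).mul_const (Real.cos a)
    simpa using this
  exact (h1.const_add (r ^ 2)).add h2

/-- One angle: `∫_0^s log (s/τ) ka τ dτ = log |r + s e^{ia}| - log r`. -/
lemma int_log_ka {r : ℝ} (hr : 0 < r) {a s : ℝ} (ha : -π < a) (ha' : a < π) (hs : 0 < s) :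
    ∫ t in (0:ℝ)..s, (Real.log s - Real.log t) * ka r a t
      = (1 / 2) * Real.log (DD r a s) - Real.log r := by
  have hDpos : ∀ t, 0 ≤ t → 0 < DD r a t := fun t ht => DD_pos hr ht ha ha'
  set F : ℝ → ℝ := fun t => (Real.log s - Real.log t) * t * ((t + r * Real.cos a) / DD r a t)
    + (1 / 2) * Real.log (DD r a t) with hF
  have hDc : ContinuousOn (fun t => DD r a t) (Icc 0 s) := by unfold DD; fun_prop
  have hFc : ContinuousOn F (Icc 0 s) := by
    have h1 : Continuous (fun t : ℝ => (Real.log s - Real.log t) * t) := by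
      have h2 : Continuous (fun t : ℝ => t * Real.log t) := Real.continuous_mul_log
      have h3 : (fun t : ℝ => (Real.log s - Real.log t) * t)
          = fun t : ℝ => Real.log s * t - t * Real.log t := by
        funext t; ring
      rw [h3]
      fun_prop
    refine ContinuousOn.add (ContinuousOn.mul h1.continuousOn ?_) ?_
    · refine ContinuousOn.div (by fun_prop) hDc ?_
      intro t ht; exact (hDpos t ht.1).ne'
    · refine ContinuousOn.mul (by fun_prop) (hDc.log ?_)
      intro t ht; exact (hDpos t ht.1).ne'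
  have hkc : ContinuousOn (fun t => ka r a t) (Icc 0 s) := by
    unfold ka
    refine ContinuousOn.div (by fun_prop) (hDc.pow 2) ?_
    intro t ht; exact pow_ne_zero _ (hDpos t ht.1).ne'
  have hint : IntervalIntegrable (fun t => (Real.log s - Real.log t) * ka r a t) volume 0 s := by
    have h1 : IntervalIntegrable (fun t => Real.log s - Real.log t) volume 0 s :=
      (intervalIntegrable_const).sub intervalIntegral.intervalIntegrable_log'
    exact h1.mul_continuousOn (by rwa [uIcc_of_le hs.le])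
  have hder : ∀ t ∈ Ioo (0:ℝ) s, HasDerivAt F ((Real.log s - Real.log t) * ka r a t) t := by
    intro t ht
    have ht0 : t ≠ 0 := ht.1.ne'
    have hD := (hDpos t ht.1.le).ne'
    have h1 : HasDerivAt (fun t : ℝ => (Real.log s - Real.log t) * t)
        ((0 - t⁻¹) * t + (Real.log s - Real.log t) * 1) t :=
      ((hasDerivAt_const t (Real.log s)).sub (Real.hasDerivAt_log ht0)).mul (hasDerivAt_id t)
    have h2 : HasDerivAt (fun t : ℝ => (t + r * Real.cos a) / DD r a t)
        ((1 * DD r a t - (t + r * Real.cos a) * (2 * t + 2 * r * Real.cos a)) / DD r a t ^ 2) t :=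
      ((hasDerivAt_id t).add_const _).div (hasDerivAt_DD_t r a t) hD
    have h3 : HasDerivAt (fun t : ℝ => (1 / 2 : ℝ) * Real.log (DD r a t))
        ((1 / 2) * ((2 * t + 2 * r * Real.cos a) / DD r a t)) t :=
      ((hasDerivAt_DD_t r a t).log hD).const_mul _
    have h4 := (h1.mul h2).add h3
    refine h4.congr_deriv ?_
    unfold ka
    field_simp
    unfold DD
    ring
  rw [intervalIntegral.integral_eq_sub_of_hasDerivAt_of_le hs.le hFc hder hint]
  simp only [hF]
  have h0 : DD r a 0 = r ^ 2 := by unfold DD; ring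
  rw [h0, Real.log_pow]
  simp

end EHP
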