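import Pool.Agent.H5.EH.A1

open MeasureTheory Set intervalIntegral Real

namespace EHP

lemma JJ_sub {r : ℝ} (hr : 0 < r) {psi s : ℝ} (hpsi : 0 ≤ psi) (hpsi' : psi < π) (hs : 0 < s) :
    JJ r psi s = 2 * psi * Real.log r
      + ∫ t in (0:ℝ)..s, (Real.log s - Real.log t) * kk r psi t := by
  have hle : -psi ≤ psi := by linarith
  -- swap
  have hInt : IntegrableOn (Function.uncurry (fun a t => (Real.log s - Real.log t) * ka r a t))
      (uIoc (-psi) psi ×ˢ uIoc 0 s) := by
    rw [uIoc_of_le hle, uIoc_of_le hs.le]
    have hsub : Ioc (-psi) psi ×ˢ Ioc 0 s ⊆ Icc (-psi) psi ×ˢ Icc (0:ℝ) s :=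
      prod_mono Ioc_subset_Icc_self Ioc_subset_Icc_self
    refine IntegrableOn.mono_set ?_ hsub
    have h1 : IntegrableOn (fun p : ℝ × ℝ => Real.log s - Real.log p.2)
        (Icc (-psi) psi ×ˢ Icc (0:ℝ) s) := by
      have hA : Integrable (fun _ : ℝ => (1:ℝ)) (volume.restrict (Icc (-psi) psi)) :=
        integrable_const _
      have hB : Integrable (fun t : ℝ => Real.log s - Real.log t)
          (volume.restrict (Icc (0:ℝ) s)) := by
        have h2 : IntervalIntegrable (fun t => Real.log s - Real.log t) volume 0 s :=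
          (intervalIntegrable_const).sub intervalIntegral.intervalIntegrable_log'
        rw [intervalIntegrable_iff_integrableOn_Icc_of_le hs.le] at h2
        exact h2
      have hC := hA.mul_prod hB
      rw [Measure.prod_restrict, ← Measure.volume_eq_prod] at hC
      simpa [IntegrableOn] using hC
    have hK : IsCompact (Icc (-psi) psi ×ˢ Icc (0:ℝ) s) := isCompact_Icc.prod isCompact_Icc
    have h3 := h1.mul_continuousOn (ka_continuousOn hr (psi := psi) (s := s) hpsi') hK
    exact h3
  have hswap := intervalIntegral_intervalIntegral_swap hInt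
  have hR : ∫ t in (0:ℝ)..s, (Real.log s - Real.log t) * kk r psi t
      = ∫ t in (0:ℝ)..s, ∫ a in (-psi)..psi, (Real.log s - Real.log t) * ka r a t := by
    apply intervalIntegral.integral_congr
    intro t ht
    rw [uIcc_of_le hs.le] at ht
    simp only
    rw [intervalIntegral.integral_const_mul, int_ka hr hpsi hpsi' ht.1]
  have hL : ∫ a in (-psi)..psi, ∫ t in (0:ℝ)..s, (Real.log s - Real.log t) * ka r a t
      = ∫ a in (-psi)..psi, ((1 / 2) * Real.log (DD r a s) - Real.log r) := by
    apply intervalIntegral.integral_congr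
    intro a ha
    rw [uIcc_of_le hle] at ha
    simp only
    rw [int_log_ka hr (by linarith [ha.1]) (by linarith [ha.2]) hs]
  have hJ : ∫ a in (-psi)..psi, ((1 / 2) * Real.log (DD r a s) - Real.log r)
      = JJ r psi s - 2 * psi * Real.log r := by
    rw [intervalIntegral.integral_sub]
    · unfold JJ
      rw [intervalIntegral.integral_const]
      simp only [smul_eq_mul]
      ring
    · apply ContinuousOn.intervalIntegrable
      refine ContinuousOn.mul (by fun_prop) (ContinuousOn.log (by unfold DD; fun_prop) ?_)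
      intro a ha
      rw [uIcc_of_le hle] at ha
      exact (DD_pos hr hs.le (by linarith [ha.1]) (by linarith [ha.2])).ne'
    · exact intervalIntegrable_const
  rw [hR, ← hswap, hL, hJ]
  ring

lemma kk_nonneg {r : ℝ} (hr : 0 < r) {psi t : ℝ} (hpsi : 0 < psi) (hpsi' : psi < π)
    (ht : 0 ≤ t) : 0 ≤ kk r psi t := by
  unfold kk
  have h1 := DD_pos hr ht (by linarith [Real.pi_pos] : -π < psi) hpsi'
  have h2 := Real.sin_nonneg_of_nonneg_of_le_pi hpsi.le hpsi'.le
  positivity

lemma kk_continuousOn {r : ℝ} (hr : 0 < r) {psi : ℝ} (hpsi : 0 < psi) (hpsi' : psi < π) :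
    ContinuousOn (fun t => kk r psi t) (Ici 0) := by
  unfold kk
  refine ContinuousOn.div (by fun_prop) (by unfold DD; fun_prop) ?_
  intro t ht
  exact (DD_pos hr ht (by linarith [Real.pi_pos] : -π < psi) hpsi').ne'

/-- The total mass of the kernel is at most `2 psi`. -/
lemma int_kk_le {r : ℝ} (hr : 0 < r) {psi R : ℝ} (hpsi : 0 < psi) (hpsi' : psi < π)
    (hR : 0 ≤ R) : ∫ t in (0:ℝ)..R, kk r psi t ≤ 2 * psi := by
  have hsin : 0 < Real.sin psi := Real.sin_pos_of_pos_of_lt_pi hpsi hpsi'
  have hrs : 0 < r * Real.sin psi := mul_pos hr hsin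
  have hsc := Real.sin_sq_add_cos_sq psi
  have hder : ∀ t ∈ uIcc (0:ℝ) R, HasDerivAt
      (fun t => 2 * Real.arctan ((t + r * Real.cos psi) / (r * Real.sin psi))) (kk r psi t) t := by
    intro t ht
    rw [uIcc_of_le hR] at ht
    have h1 : HasDerivAt (fun t : ℝ => (t + r * Real.cos psi) / (r * Real.sin psi))
        (1 / (r * Real.sin psi)) t := ((hasDerivAt_id t).add_const _).div_const _
    have h2 := (h1.arctan).const_mul 2
    refine h2.congr_deriv ?_
    have hD := (DD_pos hr ht.1 (by linarith [Real.pi_pos] : -π < psi) hpsi').ne'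
    unfold kk
    have h3 : 1 + ((t + r * Real.cos psi) / (r * Real.sin psi)) ^ 2
        = DD r psi t / (r * Real.sin psi) ^ 2 := by
      field_simp
      unfold DD
      linear_combination r ^ 2 * hsc
    rw [h3]
    field_simp
  have hc : IntervalIntegrable (fun t => kk r psi t) volume 0 R := by
    apply ContinuousOn.intervalIntegrable
    apply (kk_continuousOn hr hpsi hpsi').mono
    rw [uIcc_of_le hR]
    exact fun t ht => ht.1
  rw [intervalIntegral.integral_eq_sub_of_hasDerivAt hder hc]
  have h0 : Real.arctan ((0 + r * Real.cos psi) / (r * Real.sin psi)) = π / 2 - psi := by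
    have h1 : (0 + r * Real.cos psi) / (r * Real.sin psi) = Real.tan (π / 2 - psi) := by
      rw [Real.tan_pi_div_two_sub, Real.tan_eq_sin_div_cos, inv_div, zero_add,
        mul_div_mul_left _ _ hr.ne']
    rw [h1, Real.arctan_tan (by linarith) (by linarith)]
  have h1 := Real.arctan_lt_pi_div_two ((R + r * Real.cos psi) / (r * Real.sin psi))
  rw [h0]
  linarith

/-- The kernel identity in the form used below. -/
lemma JJ_eq {r : ℝ} (hr : 0 < r) {psi s R : ℝ} (hpsi : 0 < psi) (hpsi' : psi < π)
    (hs : 0 ≤ s) (hsR : s ≤ R) :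
    JJ r psi s = 2 * psi * Real.log r + ∫ t in (0:ℝ)..R, Real.posLog (s / t) * kk r psi t := by
  rcases hs.eq_or_lt with h | h
  · subst h
    simp only [zero_div, Real.posLog_zero, zero_mul, intervalIntegral.integral_zero, add_zero]
    unfold JJ
    have h0 : ∀ a, DD r a 0 = r ^ 2 := fun a => by unfold DD; ring
    simp only [h0, Real.log_pow, intervalIntegral.integral_const, smul_eq_mul]
    push_cast
    ring
  · rw [JJ_sub hr hpsi.le hpsi' h]
    congr 1
    have h1 : ∫ t in (0:ℝ)..s, (Real.log s - Real.log t) * kk r psi t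
        = ∫ t in (0:ℝ)..s, Real.posLog (s / t) * kk r psi t := by
      apply intervalIntegral.integral_congr_ae
      filter_upwards with t ht
      rw [uIoc_of_le h.le] at ht
      have h2 : 1 ≤ s / t := (one_le_div ht.1).2 ht.2
      rw [Real.posLog_eq_log (by rwa [abs_of_nonneg (by linarith)]), Real.log_div h.ne' ht.1.ne']
    have h2 : ∫ t in s..R, Real.posLog (s / t) * kk r psi t = 0 := by
      rw [intervalIntegral.integral_congr (g := fun _ => (0:ℝ))]
      · simp
      · intro t ht
        rw [uIcc_of_le hsR] at ht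
        have ht0 : 0 < t := lt_of_lt_of_le h ht.1
        have h3 : |s / t| ≤ 1 := by
          rw [abs_of_nonneg (by positivity)]
          exact (div_le_one ht0).2 ht.1
        have h4 : Real.posLog (s / t) = 0 := (Real.posLog_eq_zero_iff _).2 h3
        simp only [h4, zero_mul]
    have hI1 : IntervalIntegrable (fun t => Real.posLog (s / t) * kk r psi t) volume 0 s := by
      have h3 : IntervalIntegrable (fun t => (Real.log s - Real.log t) * kk r psi t)
          volume 0 s := by
        have h4 : IntervalIntegrable (fun t => Real.log s - Real.log t) volume 0 s :=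
          (intervalIntegrable_const).sub intervalIntegral.intervalIntegrable_log'
        refine h4.mul_continuousOn ((kk_continuousOn hr hpsi hpsi').mono ?_)
        rw [uIcc_of_le h.le]; exact fun t ht => ht.1
      refine h3.congr_ae ?_
      rw [uIoc_of_le h.le]
      filter_upwards [ae_restrict_mem measurableSet_Ioc] with t ht
      have h2 : 1 ≤ s / t := (one_le_div ht.1).2 ht.2
      rw [Real.posLog_eq_log (by rwa [abs_of_nonneg (by linarith)]), Real.log_div h.ne' ht.1.ne']
    have hI2 : IntervalIntegrable (fun t => Real.posLog (s / t) * kk r psi t) volume s R := by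
      have h3 : IntervalIntegrable (fun _ : ℝ => (0:ℝ)) volume s R := intervalIntegrable_const
      refine h3.congr_ae ?_
      rw [uIoc_of_le hsR]
      filter_upwards [ae_restrict_mem measurableSet_Ioc] with t ht
      have ht0 : 0 < t := lt_trans h ht.1
      have h3 : |s / t| ≤ 1 := by
        rw [abs_of_nonneg (by positivity)]
        exact (div_le_one ht0).2 ht.1.le
      rw [(Real.posLog_eq_zero_iff _).2 h3, zero_mul]
    rw [h1, ← intervalIntegral.integral_add_adjacent_intervals hI1 hI2, h2, add_zero]

end EHP
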