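import Pool.Agent.H5.EH.A2

/-!
# The model: the Green function of the segment `[0,4]`
-/

open MeasureTheory Set intervalIntegral Real

namespace EHP

/-- Green function of `[0,4]`. -/
noncomputable def gv (z : ℂ) : ℝ := Real.arcosh ((‖z‖ + ‖z - 4‖) / 4)

/-- The points of the segment. -/
noncomputable def pt (th : ℝ) : ℝ := 2 + 2 * Real.cos th

lemma pt_nonneg (th : ℝ) : 0 ≤ pt th := by
  unfold pt; linarith [Real.neg_one_le_cos th]

lemma pt_le (th : ℝ) : pt th ≤ 4 := by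
  unfold pt; linarith [Real.cos_le_one th]

lemma exists_jouk (z : ℂ) : ∃ w : ℂ, 1 ≤ ‖w‖ ∧ z - 2 = w + w⁻¹ := by
  obtain ⟨y, hy⟩ := IsAlgClosed.exists_pow_nat_eq ((z - 2) ^ 2 - 4) (n := 2) (by norm_num)
  set w : ℂ := ((z - 2) + y) / 2 with hw
  have h1 : w ^ 2 - (z - 2) * w + 1 = 0 := by
    rw [hw]; linear_combination (1 / 4 : ℂ) * hy
  have hw0 : w ≠ 0 := by
    intro h; rw [h] at h1; norm_num at h1
  have h2 : z - 2 = w + w⁻¹ := by
    field_simp
    linear_combination -h1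
  rcases le_total 1 ‖w‖ with h | h
  · exact ⟨w, h, h2⟩
  · refine ⟨w⁻¹, ?_, ?_⟩
    · rw [norm_inv]
      exact (one_le_inv₀ (norm_pos_iff.2 hw0)).2 h
    · rw [inv_inv, h2, add_comm]

lemma gv_of_jouk {z w : ℂ} (hw : 1 ≤ ‖w‖) (hz : z - 2 = w + w⁻¹) : gv z = Real.log ‖w‖ := by
  have hw0 : w ≠ 0 := norm_pos_iff.1 (lt_of_lt_of_le one_pos hw)
  have hn0 : ‖w‖ ≠ 0 := norm_ne_zero_iff.2 hw0
  have h1 : z = (w + 1) ^ 2 / w := by
    field_simp
    have : z = 2 + w + w⁻¹ := by linear_combination hz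
    rw [this]; field_simp; ring
  have h2 : z - 4 = (w - 1) ^ 2 / w := by
    field_simp
    have : z = 2 + w + w⁻¹ := by linear_combination hz
    rw [this]; field_simp; ring
  have hpar := parallelogram_law_with_norm ℝ w (1 : ℂ)
  rw [norm_one] at hpar
  have h3 : (‖z‖ + ‖z - 4‖) / 4 = Real.cosh (Real.log ‖w‖) := by
    rw [Real.cosh_log (lt_of_lt_of_le one_pos hw), h2, h1, norm_div, norm_div, norm_pow, norm_pow]
    field_simp
    linarith [hpar]
  unfold gv
  rw [h3, Real.arcosh_cosh (Real.log_nonneg hw)]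

lemma log_norm_sub_pt {z w : ℂ} (hw : 1 ≤ ‖w‖) (hz : z - 2 = w + w⁻¹) {th : ℝ}
    (h1 : circleMap 0 1 th ≠ w) (h2 : circleMap 0 1 th ≠ w⁻¹) :
    Real.log ‖z - (pt th : ℂ)‖
      = Real.log ‖circleMap 0 1 th - w‖ + Real.log ‖circleMap 0 1 th - w⁻¹‖ := by
  have hw0 : w ≠ 0 := norm_pos_iff.1 (lt_of_lt_of_le one_pos hw)
  set e : ℂ := circleMap 0 1 th with he
  have he1 : ‖e‖ = 1 := by rw [he]; simp
  have he0 : e ≠ 0 := by intro h; rw [h] at he1; norm_num at he1
  have hee : (2 * Real.cos th : ℂ) = e + e⁻¹ := by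
    rw [he]
    simp only [circleMap, Complex.ofReal_one, one_mul, zero_add, Complex.ofReal_cos]
    rw [← Complex.exp_neg, Complex.cos]
    ring_nf
  have h3 : z - (pt th : ℂ) = (w - e) * (e - w⁻¹) / e := by
    have h4 : (pt th : ℂ) = 2 + (e + e⁻¹) := by
      rw [← hee]; unfold pt; push_cast; ring
    have h5 : z = 2 + w + w⁻¹ := by linear_combination hz
    rw [h4, h5]
    field_simp
    ring
  rw [h3, norm_div, norm_mul, he1, div_one, Real.log_mul, norm_sub_rev w e]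
  · exact norm_ne_zero_iff.2 (sub_ne_zero.2 (Ne.symm h1))
  · exact norm_ne_zero_iff.2 (sub_ne_zero.2 h2)

/-- `gv` is the logarithmic potential of the arcsine law. -/
lemma gv_eq_integral (z : ℂ) :
    gv z = (2 * π)⁻¹ * ∫ th in (0:ℝ)..(2 * π), Real.log ‖z - (pt th : ℂ)‖ := by
  obtain ⟨w, hw, hz⟩ := exists_jouk z
  have hw0 : w ≠ 0 := norm_pos_iff.1 (lt_of_lt_of_le one_pos hw)
  rw [gv_of_jouk hw hz]
  have hc1 : (circleMap 0 1 ⁻¹' {w}).Countable :=
    (Set.countable_singleton w).preimage_circleMap 0 one_ne_zero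
  have hc2 : (circleMap 0 1 ⁻¹' {w⁻¹}).Countable :=
    (Set.countable_singleton w⁻¹).preimage_circleMap 0 one_ne_zero
  have hae : ∀ᵐ th : ℝ, th ∈ uIoc 0 (2 * π) → Real.log ‖z - (pt th : ℂ)‖
      = Real.log ‖circleMap 0 1 th - w‖ + Real.log ‖circleMap 0 1 th - w⁻¹‖ := by
    have h1 := hc1.ae_notMem volume
    have h2 := hc2.ae_notMem volume
    filter_upwards [h1, h2] with th h3 h4 _
    exact log_norm_sub_pt hw hz h3 h4
  rw [intervalIntegral.integral_congr_ae hae]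
  have hI1 : IntervalIntegrable (fun th => Real.log ‖circleMap 0 1 th - w‖) volume 0 (2 * π) :=
    circleIntegrable_log_norm_sub_const (a := w) (c := 0) 1
  have hI2 : IntervalIntegrable (fun th => Real.log ‖circleMap 0 1 th - w⁻¹‖) volume 0 (2 * π) :=
    circleIntegrable_log_norm_sub_const (a := w⁻¹) (c := 0) 1
  rw [intervalIntegral.integral_add hI1 hI2, mul_add]
  have e1 : (2 * π)⁻¹ * ∫ th in (0:ℝ)..(2 * π), Real.log ‖circleMap 0 1 th - w‖
      = Real.posLog ‖w‖ := by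
    have := circleAverage_log_norm_sub_const_eq_posLog (a := w)
    rw [Real.circleAverage_def] at this
    simpa using this
  have e2 : (2 * π)⁻¹ * ∫ th in (0:ℝ)..(2 * π), Real.log ‖circleMap 0 1 th - w⁻¹‖
      = Real.posLog ‖w⁻¹‖ := by
    have := circleAverage_log_norm_sub_const_eq_posLog (a := w⁻¹)
    rw [Real.circleAverage_def] at this
    simpa using this
  rw [e1, e2, Real.posLog_eq_log (by rwa [abs_norm]), (Real.posLog_eq_zero_iff _).2, add_zero]
  rw [abs_norm, norm_inv]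
  exact inv_le_one_of_one_le₀ hw

end EHP
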