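import Pool.Agent.H5.EH.B1
import Pool.Agent.H9.EH.Asm

/-!
# Glue: means of `log max` control arc integrals
-/

open MeasureTheory Set intervalIntegral Real
open Pool.Agent.H9.EH (J norm_circleMap_add_sq)

namespace EHP

lemma J_eq_JJ (r psi t : ℝ) : J r psi t = JJ r psi t := by
  unfold J JJ
  congr 1
  funext a
  have h : ‖circleMap 0 r a + (t : ℂ)‖ ^ 2 = DD r a t := norm_circleMap_add_sq r a t
  rw [← h, Real.log_pow]
  push_cast
  ring

lemma kk_measurable (r psi : ℝ) : Measurable (fun t => kk r psi t) := by
  unfold kk DD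
  fun_prop

lemma posLog_measurable : Measurable (fun x : ℝ => Real.posLog x) := by
  unfold Real.posLog
  exact measurable_const.max Real.measurable_log

lemma intervalIntegrable_posLog_kk {r : ℝ} (hr : 0 < r) {psi s R : ℝ} (hpsi : 0 < psi)
    (hpsi' : psi < π) (hs : 0 ≤ s) (hsR : s ≤ R) :
    IntervalIntegrable (fun t => Real.posLog (s / t) * kk r psi t) volume 0 R := by
  rcases hs.eq_or_lt with h | h
  · rw [← h]
    simp only [zero_div, Real.posLog_zero, zero_mul]
    exact intervalIntegrable_const
  have hI1 : IntervalIntegrable (fun t => Real.posLog (s / t) * kk r psi t) volume 0 s := by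
    have h3 : IntervalIntegrable (fun t => (Real.log s - Real.log t) * kk r psi t)
        volume 0 s := by
      have h4 : IntervalIntegrable (fun t => Real.log s - Real.log t) volume 0 s :=
        (intervalIntegrable_const).sub intervalIntegral.intervalIntegrable_log'
      refine h4.mul_continuousOn ((kk_continuousOn hr hpsi hpsi').mono ?_)
      rw [uIcc_of_le h.le]; exact fun t ht => ht.1
    refine h3.congr_ae ?_
    rw [uIoc_of_le h.le]
    filter_upwards [ae_restrict_mem measurableSet_Ioc] with t ht
    have h2 : 1 ≤ s / t := (one_le_div ht.1).2 ht.2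
    rw [Real.posLog_eq_log (by rwa [abs_of_nonneg (by linarith)]), Real.log_div h.ne' ht.1.ne']
  have hI2 : IntervalIntegrable (fun t => Real.posLog (s / t) * kk r psi t) volume s R := by
    have h3 : IntervalIntegrable (fun _ : ℝ => (0:ℝ)) volume s R := intervalIntegrable_const
    refine h3.congr_ae ?_
    rw [uIoc_of_le hsR]
    filter_upwards [ae_restrict_mem measurableSet_Ioc] with t ht
    have ht0 : 0 < t := lt_trans h ht.1
    have h3 : |s / t| ≤ 1 := by
      rw [abs_of_nonneg (by positivity)]
      exact (div_le_one ht0).2 ht.1.le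
    rw [(Real.posLog_eq_zero_iff _).2 h3, zero_mul]
  exact hI1.trans hI2

lemma log_max_eq {s x : ℝ} (hs : 0 < s) (hx : 0 ≤ x) :
    Real.log (max s x) = Real.log s + Real.posLog (x / s) := by
  rcases le_total x s with h | h
  · rw [max_eq_left h, (Real.posLog_eq_zero_iff _).2, add_zero]
    rw [abs_of_nonneg (by positivity)]
    exact (div_le_one hs).2 h
  · have hx0 : 0 < x := lt_of_lt_of_le hs h
    rw [max_eq_right h, Real.posLog_eq_log, Real.log_div hx0.ne' hs.ne']
    · ring
    · rw [abs_of_nonneg (by positivity)]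
      exact (one_le_div hs).2 h

lemma pt_continuous : Continuous pt := by unfold pt; fun_prop

lemma integrableOn_F {r : ℝ} (hr : 0 < r) {psi R : ℝ} (hpsi : 0 < psi)
    (hpsi' : psi < π) (hR : 4 ≤ R) :
    IntegrableOn (Function.uncurry (fun a t => Real.posLog (pt a / t) * kk r psi t))
      (uIoc 0 (2 * π) ×ˢ uIoc 0 R) := by
  have hR0 : (0:ℝ) ≤ R := by linarith
  rw [uIoc_of_le Real.two_pi_pos.le, uIoc_of_le hR0]
  have hB := intervalIntegrable_posLog_kk hr hpsi hpsi' (s := 4) (R := R) (by norm_num) hR
  rw [intervalIntegrable_iff_integrableOn_Ioc_of_le hR0] at hB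
  have hA : Integrable (fun _ : ℝ => (1:ℝ)) (volume.restrict (Ioc 0 (2 * π))) :=
    integrable_const _
  have hC := hA.mul_prod hB
  rw [Measure.prod_restrict, ← Measure.volume_eq_prod] at hC
  refine Integrable.mono' hC ?_ ?_
  · apply Measurable.aestronglyMeasurable
    have h1 : Measurable (fun p : ℝ × ℝ => Real.posLog (pt p.1 / p.2)) :=
      posLog_measurable.comp
        ((pt_continuous.measurable.comp measurable_fst).div measurable_snd)
    exact h1.mul ((kk_measurable r psi).comp measurable_snd)
  · filter_upwards [ae_restrict_mem (measurableSet_Ioc.prod measurableSet_Ioc)] with p hp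
    obtain ⟨a, t⟩ := p
    have ht : 0 < t := hp.2.1
    have hk := kk_nonneg hr hpsi hpsi' ht.le
    simp only [Function.uncurry, one_mul]
    rw [Real.norm_eq_abs, abs_of_nonneg (mul_nonneg Real.posLog_nonneg hk)]
    refine mul_le_mul_of_nonneg_right ?_ hk
    apply Real.posLog_le_posLog
    · exact div_nonneg (pt_nonneg a) ht.le
    · exact div_le_div_of_nonneg_right (pt_le a) ht.le

/-- **Glue.** A comparison of the means of `log max (s, ·)` for all `s` implies the comparison
of the arc integrals. -/
theorem glue {n : ℕ} (hn : 0 < n) (z : Fin n → ℂ) (c : ℝ) (hc : 0 ≤ c)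
    (h : ∀ s : ℝ, 0 < s → (1 / (n : ℝ)) * ∑ j, Real.log (max s ‖z j‖)
      ≤ (2 * π)⁻¹ * (∫ a in (0:ℝ)..(2 * π), Real.log (max s (pt a))) + c)
    {r : ℝ} (hr : 0 < r) {psi : ℝ} (hpsi : 0 < psi) (hpsi' : psi < π) :
    (1 / (n : ℝ)) * ∑ j, J r psi ‖z j‖
      ≤ (2 * π)⁻¹ * (∫ a in (0:ℝ)..(2 * π), J r psi (pt a)) + 2 * psi * c := by
  have hnR : (0:ℝ) < n := by exact_mod_cast hn
  set R : ℝ := 4 + ∑ j, ‖z j‖ with hRdef
  have hsum : 0 ≤ ∑ j, ‖z j‖ := Finset.sum_nonneg fun j _ => norm_nonneg _
  have hR4 : 4 ≤ R := by rw [hRdef]; linarith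
  have hR0 : 0 ≤ R := by linarith
  have hzR : ∀ j, ‖z j‖ ≤ R := by
    intro j
    have := Finset.single_le_sum (f := fun j => ‖z j‖) (fun j _ => norm_nonneg _)
      (Finset.mem_univ j)
    rw [hRdef]; linarith
  have hpi := Real.two_pi_pos
  -- left side
  have hL : (1 / (n : ℝ)) * ∑ j, J r psi ‖z j‖ = 2 * psi * Real.log r
      + ∫ t in (0:ℝ)..R, ((1 / (n : ℝ)) * ∑ j, Real.posLog (‖z j‖ / t)) * kk r psi t := by
    have e1 : ∀ j, J r psi ‖z j‖ = 2 * psi * Real.log r
        + ∫ t in (0:ℝ)..R, Real.posLog (‖z j‖ / t) * kk r psi t := fun j => by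
      rw [J_eq_JJ, JJ_eq hr hpsi hpsi' (norm_nonneg _) (hzR j)]
    simp only [e1]
    rw [Finset.sum_add_distrib, ← intervalIntegral.integral_finsetSum]
    · rw [Finset.sum_const, Finset.card_univ, Fintype.card_fin, nsmul_eq_mul, mul_add,
        ← intervalIntegral.integral_const_mul]
      congr 1
      · field_simp
      · congr 1
        funext t
        rw [← Finset.sum_mul]; ring
    · intro j _
      exact intervalIntegrable_posLog_kk hr hpsi hpsi' (norm_nonneg _) (hzR j)
  -- right side
  have hF := integrableOn_F hr hpsi hpsi' hR4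
  have hswap := intervalIntegral_intervalIntegral_swap hF
  have hRt : (2 * π)⁻¹ * (∫ a in (0:ℝ)..(2 * π), J r psi (pt a)) = 2 * psi * Real.log r
      + ∫ t in (0:ℝ)..R, ((2 * π)⁻¹ * ∫ a in (0:ℝ)..(2 * π), Real.posLog (pt a / t))
          * kk r psi t := by
    have e1 : ∀ a, J r psi (pt a) = 2 * psi * Real.log r
        + ∫ t in (0:ℝ)..R, Real.posLog (pt a / t) * kk r psi t := fun a => by
      rw [J_eq_JJ, JJ_eq hr hpsi hpsi' (pt_nonneg a) ((pt_le a).trans hR4)]
    simp only [e1]
    have hIa : IntervalIntegrable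
        (fun a => ∫ t in (0:ℝ)..R, Real.posLog (pt a / t) * kk r psi t) volume 0 (2 * π) := by
      rw [intervalIntegrable_iff]
      have h1 : Integrable (Function.uncurry (fun a t => Real.posLog (pt a / t) * kk r psi t))
          ((volume.restrict (uIoc 0 (2 * π))).prod (volume.restrict (uIoc 0 R))) := by
        rw [Measure.prod_restrict, ← Measure.volume_eq_prod]; exact hF
      have h2 := h1.integral_prod_left
      refine h2.congr ?_
      filter_upwards with a
      rw [intervalIntegral.integral_of_le hR0, uIoc_of_le hR0]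
      rfl
    rw [intervalIntegral.integral_add intervalIntegrable_const hIa, hswap,
      intervalIntegral.integral_const, mul_add, ← intervalIntegral.integral_const_mul]
    congr 1
    · simp only [smul_eq_mul, sub_zero]
      field_simp
    · congr 1
      funext t
      rw [intervalIntegral.integral_mul_const]; ring
  have hIB : IntervalIntegrable (fun t => ((2 * π)⁻¹ * ∫ a in (0:ℝ)..(2 * π),
      Real.posLog (pt a / t)) * kk r psi t) volume 0 R := by
    rw [intervalIntegrable_iff]
    have h1 : Integrable (Function.uncurry (fun a t => Real.posLog (pt a / t) * kk r psi t))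
        ((volume.restrict (uIoc 0 (2 * π))).prod (volume.restrict (uIoc 0 R))) := by
      rw [Measure.prod_restrict, ← Measure.volume_eq_prod]; exact hF
    have h2 := (h1.integral_prod_right).const_mul (2 * π)⁻¹
    refine h2.congr ?_
    filter_upwards with t
    simp only [Function.uncurry]
    rw [mul_assoc, ← intervalIntegral.integral_mul_const,
      intervalIntegral.integral_of_le hpi.le, uIoc_of_le hpi.le]
  have hIA : IntervalIntegrable (fun t => ((1 / (n : ℝ)) * ∑ j, Real.posLog (‖z j‖ / t))
      * kk r psi t) volume 0 R := by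
    have h1 : IntervalIntegrable (∑ j : Fin n, fun t => Real.posLog (‖z j‖ / t) * kk r psi t)
        volume 0 R := IntervalIntegrable.sum _ fun j _ =>
      intervalIntegrable_posLog_kk hr hpsi hpsi' (norm_nonneg _) (hzR j)
    refine (h1.const_mul (1 / (n : ℝ))).congr_ae ?_
    filter_upwards with t
    simp only [Finset.sum_apply]
    rw [← Finset.sum_mul]; ring
  have hIk : IntervalIntegrable (fun t => kk r psi t) volume 0 R := by
    apply ContinuousOn.intervalIntegrable
    apply (kk_continuousOn hr hpsi hpsi').mono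
    rw [uIcc_of_le hR0]
    exact fun t ht => ht.1
  have hkey : ∫ t in (0:ℝ)..R, ((1 / (n : ℝ)) * ∑ j, Real.posLog (‖z j‖ / t)) * kk r psi t
      ≤ ∫ t in (0:ℝ)..R, (((2 * π)⁻¹ * ∫ a in (0:ℝ)..(2 * π), Real.posLog (pt a / t))
          * kk r psi t + c * kk r psi t) := by
    refine intervalIntegral.integral_mono_on_of_le_Ioo hR0 hIA (hIB.add (hIk.const_mul c)) ?_
    intro t ht
    have hk := kk_nonneg hr hpsi hpsi' ht.1.le
    rw [← add_mul]
    refine mul_le_mul_of_nonneg_right ?_ hk
    have h1 := h t ht.1
    have e1 : (1 / (n : ℝ)) * ∑ j, Real.log (max t ‖z j‖)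
        = Real.log t + (1 / (n : ℝ)) * ∑ j, Real.posLog (‖z j‖ / t) := by
      simp only [log_max_eq ht.1 (norm_nonneg _)]
      rw [Finset.sum_add_distrib, Finset.sum_const, Finset.card_univ, Fintype.card_fin,
        nsmul_eq_mul, mul_add]
      field_simp
    have e2 : (2 * π)⁻¹ * (∫ a in (0:ℝ)..(2 * π), Real.log (max t (pt a)))
        = Real.log t + (2 * π)⁻¹ * ∫ a in (0:ℝ)..(2 * π), Real.posLog (pt a / t) := by
      simp only [log_max_eq ht.1 (pt_nonneg _)]
      rw [intervalIntegral.integral_add intervalIntegrable_const, intervalIntegral.integral_const,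
        mul_add]
      · simp only [smul_eq_mul, sub_zero]
        field_simp
      · apply Continuous.intervalIntegrable
        exact Real.continuous_posLog.comp (pt_continuous.div_const t)
    rw [e1, e2] at h1
    linarith
  rw [intervalIntegral.integral_add hIB (hIk.const_mul c), intervalIntegral.integral_const_mul]
    at hkey
  have hk2 := int_kk_le hr hpsi hpsi' hR0
  rw [hL, hRt]
  nlinarith [mul_le_mul_of_nonneg_left hk2 hc]

end EHP
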